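import Pool.Agent.BOX.StmtsT

set_option autoImplicit false

/-!
# Squad BOX, row DIT: almost every number satisfies the Diophantine condition of order two
-/

namespace Pool.Agent.BOX.H23

open Pool.Agent.BOX
open MeasureTheory Set Filter

/-- the polynomial with the integer coefficients `m` -/
def Pm (m : ℤ × ℤ × ℤ) (s : ℝ) : ℝ := m.1 + m.2.1 * s + m.2.2 * s ^ 2

/-- the height -/
def Hm (m : ℤ × ℤ × ℤ) : ℝ := 1 + |(m.1 : ℝ)| + |(m.2.1 : ℝ)| + |(m.2.2 : ℝ)|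

theorem one_le_Hm (m : ℤ × ℤ × ℤ) : 1 ≤ Hm m := by
  unfold Hm
  have h1 := abs_nonneg (m.1 : ℝ)
  have h2 := abs_nonneg (m.2.1 : ℝ)
  have h3 := abs_nonneg (m.2.2 : ℝ)
  linarith

theorem one_le_abs_int (a : ℤ) (ha : a ≠ 0) : (1 : ℝ) ≤ |(a : ℝ)| := by
  have := Int.one_le_abs ha
  exact_mod_cast this

theorem two_balls (m : ℤ × ℤ × ℤ) (hm : ¬(m.1 = 0 ∧ m.2.1 = 0 ∧ m.2.2 = 0)) :
    ∃ c1 c2 : ℝ, ∀ ε : ℝ, 0 < ε → ε ≤ 1 → ∀ s : ℝ, |Pm m s| < ε ^ 2 →
      |s - c1| < ε ∨ |s - c2| < ε := by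
  obtain ⟨m0, m1, m2⟩ := m
  simp only at hm
  unfold Pm
  simp only
  by_cases h2 : m2 = 0
  · subst h2
    by_cases h1 : m1 = 0
    · subst h1
      have h0 : m0 ≠ 0 := fun h => hm ⟨h, rfl, rfl⟩
      refine ⟨0, 0, ?_⟩
      intro ε hε hε1 s hs
      exfalso
      have h3 := one_le_abs_int m0 h0
      simp only [Int.cast_zero, zero_mul, add_zero] at hs
      nlinarith
    · refine ⟨-(m0 : ℝ) / m1, -(m0 : ℝ) / m1, ?_⟩
      intro ε hε hε1 s hs
      left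
      have h3 := one_le_abs_int m1 h1
      have h4 : (m1 : ℝ) ≠ 0 := by exact_mod_cast h1
      have h5 : (m0 : ℝ) + m1 * s + ((0 : ℤ) : ℝ) * s ^ 2 = m1 * (s - -(m0 : ℝ) / m1) := by
        push_cast
        field_simp
        ring
      rw [h5, abs_mul] at hs
      have h6 : ε ^ 2 ≤ ε := by nlinarith
      have h7 := mul_le_mul_of_nonneg_right h3 (abs_nonneg (s - -(m0 : ℝ) / m1))
      linarith
  · have h3 := one_le_abs_int m2 h2
    have h4 : (m2 : ℝ) ≠ 0 := by exact_mod_cast h2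
    obtain ⟨c, hc⟩ : ∃ c : ℝ, c = -(m1 : ℝ) / (2 * m2) := ⟨_, rfl⟩
    obtain ⟨D, hD⟩ : ∃ D : ℝ, D = c ^ 2 - m0 / m2 := ⟨_, rfl⟩
    obtain ⟨r, hr⟩ : ∃ r : ℝ, r = Real.sqrt (max D 0) := ⟨_, rfl⟩
    have hr2 : r ^ 2 = max D 0 := by
      rw [hr]
      exact Real.sq_sqrt (le_max_right _ _)
    refine ⟨c + r, c - r, ?_⟩
    intro ε hε hε1 s hs
    have h5 : (m0 : ℝ) + m1 * s + m2 * s ^ 2 = m2 * ((s - c) ^ 2 - D) := by
      rw [hD, hc]
      field_simp
      ring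
    rw [h5, abs_mul] at hs
    have h7 := mul_le_mul_of_nonneg_right h3 (abs_nonneg ((s - c) ^ 2 - D))
    have h8 : |(s - c) ^ 2 - D| < ε ^ 2 := by linarith
    by_contra hno
    push Not at hno
    obtain ⟨n1, n2⟩ := hno
    have h9 : ε * ε ≤ |s - (c + r)| * |s - (c - r)| :=
      mul_le_mul n1 n2 hε.le (abs_nonneg _)
    rw [← abs_mul, show (s - (c + r)) * (s - (c - r)) = (s - c) ^ 2 - r ^ 2 by ring, hr2] at h9
    rcases le_total D 0 with hD0 | hD0
    · rw [max_eq_right hD0, sub_zero, abs_of_nonneg (sq_nonneg _)] at h9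
      rw [abs_of_nonneg (by nlinarith [sq_nonneg (s - c)])] at h8
      nlinarith
    · rw [max_eq_left hD0] at h9
      nlinarith

/-- the radius -/
noncomputable def em (m : ℤ × ℤ × ℤ) : ℝ := 1 / Hm m ^ 6

theorem em_pos (m : ℤ × ℤ × ℤ) : 0 < em m := by
  have := one_le_Hm m
  unfold em
  positivity

theorem em_le_one (m : ℤ × ℤ × ℤ) : em m ≤ 1 := by
  have h := one_le_Hm m
  unfold em
  rw [div_le_one (by positivity)]
  exact one_le_pow₀ h

/-- the exceptional sets -/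
def Em (m : ℤ × ℤ × ℤ) : Set ℝ :=
  {s | ¬(m.1 = 0 ∧ m.2.1 = 0 ∧ m.2.2 = 0) ∧ |Pm m s| < em m ^ 2}

theorem vol_Em (m : ℤ × ℤ × ℤ) : volume (Em m) ≤ ENNReal.ofReal (4 * em m) := by
  by_cases hm : (m.1 = 0 ∧ m.2.1 = 0 ∧ m.2.2 = 0)
  · have : Em m = ∅ := by
      ext s
      simp only [Em, mem_setOf_eq, mem_empty_iff_false, iff_false]
      exact fun h => h.1 hm
    rw [this, measure_empty]
    exact zero_le
  · obtain ⟨c1, c2, h⟩ := two_balls m hm
    have hsub : Em m ⊆ Metric.ball c1 (em m) ∪ Metric.ball c2 (em m) := by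
      intro s hs
      rcases h (em m) (em_pos m) (em_le_one m) s hs.2 with h1 | h1
      · left
        rw [Metric.mem_ball, Real.dist_eq]
        exact h1
      · right
        rw [Metric.mem_ball, Real.dist_eq]
        exact h1
    calc volume (Em m) ≤ volume (Metric.ball c1 (em m) ∪ Metric.ball c2 (em m)) :=
          measure_mono hsub
      _ ≤ volume (Metric.ball c1 (em m)) + volume (Metric.ball c2 (em m)) := measure_union_le _ _
      _ = ENNReal.ofReal (4 * em m) := by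
          rw [Real.volume_ball, Real.volume_ball, ← ENNReal.ofReal_add
            (by have := em_pos m; positivity) (by have := em_pos m; positivity)]
          congr 1
          ring

/-- the summable majorant -/
noncomputable def gg (n : ℤ) : ℝ := 1 / (1 + |(n : ℝ)|) ^ 2

theorem gg_nonneg (n : ℤ) : 0 ≤ gg n := by
  unfold gg
  positivity

theorem summable_gg : Summable gg := by
  rw [summable_int_iff_summable_nat_and_neg]
  have h0 : Summable fun n : ℕ => 1 / (((n + 1 : ℕ) : ℝ)) ^ 2 :=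
    (summable_nat_add_iff (f := fun n : ℕ => 1 / ((n : ℝ)) ^ 2) 1).2
      (Real.summable_one_div_nat_pow.2 one_lt_two)
  constructor
  · refine h0.congr fun n => ?_
    unfold gg
    push_cast
    rw [abs_of_nonneg (Nat.cast_nonneg n), add_comm]
  · refine h0.congr fun n => ?_
    unfold gg
    push_cast
    rw [abs_neg, abs_of_nonneg (Nat.cast_nonneg n), add_comm]

theorem summable_em : Summable fun m => 4 * em m := by
  have h1 : Summable fun x : ℤ × ℤ => gg x.1 * gg x.2 :=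
    summable_gg.mul_of_nonneg summable_gg gg_nonneg gg_nonneg
  have h2 : Summable fun x : ℤ × ℤ × ℤ => gg x.1 * (gg x.2.1 * gg x.2.2) :=
    summable_gg.mul_of_nonneg h1 gg_nonneg
      (fun x => mul_nonneg (gg_nonneg _) (gg_nonneg _))
  refine Summable.of_nonneg_of_le (fun m => by have := em_pos m; positivity) ?_ (h2.mul_left 4)
  intro m
  apply mul_le_mul_of_nonneg_left _ (by norm_num)
  unfold em gg
  rw [one_div_mul_one_div, one_div_mul_one_div]
  have a0 := abs_nonneg (m.1 : ℝ)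
  have a1 := abs_nonneg (m.2.1 : ℝ)
  have a2 := abs_nonneg (m.2.2 : ℝ)
  have b0 : (1 + |(m.1 : ℝ)|) ^ 2 ≤ Hm m ^ 2 :=
    pow_le_pow_left₀ (by linarith) (by unfold Hm; linarith) 2
  have b1 : (1 + |(m.2.1 : ℝ)|) ^ 2 ≤ Hm m ^ 2 :=
    pow_le_pow_left₀ (by linarith) (by unfold Hm; linarith) 2
  have b2 : (1 + |(m.2.2 : ℝ)|) ^ 2 ≤ Hm m ^ 2 :=
    pow_le_pow_left₀ (by linarith) (by unfold Hm; linarith) 2
  have hH := one_le_Hm m
  apply one_div_le_one_div_of_le (by positivity)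
  calc (1 + |(m.1 : ℝ)|) ^ 2 * ((1 + |(m.2.1 : ℝ)|) ^ 2 * (1 + |(m.2.2 : ℝ)|) ^ 2)
      ≤ Hm m ^ 2 * (Hm m ^ 2 * Hm m ^ 2) := by gcongr
    _ = Hm m ^ 6 := by ring

theorem ae_fin : ∀ᵐ s : ℝ, {m | s ∈ Em m}.Finite := by
  apply ae_finite_setOf_mem
  refine ne_top_of_le_ne_top (b := ∑' m, ENNReal.ofReal (4 * em m)) ?_ ?_
  · exact summable_em.tsum_ofReal_ne_top
  · exact ENNReal.tsum_le_tsum vol_Em

theorem ae_ne : ∀ᵐ s : ℝ, ∀ m : ℤ × ℤ × ℤ, ¬(m.1 = 0 ∧ m.2.1 = 0 ∧ m.2.2 = 0) → Pm m s ≠ 0 := by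
  rw [ae_all_iff]
  intro m
  by_cases hm : (m.1 = 0 ∧ m.2.1 = 0 ∧ m.2.2 = 0)
  · exact ae_of_all _ fun s h => absurd hm h
  · obtain ⟨c1, c2, h⟩ := two_balls m hm
    have hsub : {s : ℝ | ¬ (¬(m.1 = 0 ∧ m.2.1 = 0 ∧ m.2.2 = 0) → Pm m s ≠ 0)} ⊆ {c1, c2} := by
      intro s hs
      simp only [mem_setOf_eq, Classical.not_imp, not_not] at hs
      by_contra hno
      simp only [mem_insert_iff, mem_singleton_iff, not_or] at hno
      obtain ⟨n1, n2⟩ := hno
      have p1 : 0 < |s - c1| := abs_pos.2 (sub_ne_zero.2 n1)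
      have p2 : 0 < |s - c2| := abs_pos.2 (sub_ne_zero.2 n2)
      have hpos : 0 < min 1 (min |s - c1| |s - c2|) := lt_min one_pos (lt_min p1 p2)
      rcases h _ hpos (min_le_left _ _) s (by rw [hs.2, abs_zero]; positivity) with h1 | h1
      · exact absurd h1 (not_lt.2 ((min_le_right _ _).trans (min_le_left _ _)))
      · exact absurd h1 (not_lt.2 ((min_le_right _ _).trans (min_le_right _ _)))
    rw [ae_iff]
    exact measure_mono_null hsub ((Set.toFinite {c1, c2}).measure_zero _)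

theorem ae_dio : ∀ᵐ s : ℝ, Dio2 s := by
  filter_upwards [ae_fin, ae_ne] with s h1 h2
  obtain ⟨c, hc, hcm⟩ : ∃ c > 0, ∀ m ∈ {m | s ∈ Em m}, c ≤ |Pm m s| := by
    by_cases hne : {m | s ∈ Em m}.Nonempty
    · obtain ⟨m0, hm0, hmin⟩ := Set.exists_min_image _ (fun m => |Pm m s|) h1 hne
      exact ⟨|Pm m0 s|, abs_pos.2 (h2 m0 hm0.1), hmin⟩
    · exact ⟨1, one_pos, fun m hm => absurd ⟨m, hm⟩ hne⟩
  refine ⟨min 1 c, lt_min one_pos hc, 12, ?_⟩
  intro m0 m1 m2 hm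
  have hH := one_le_Hm (m0, m1, m2)
  have hHe : Hm (m0, m1, m2) = 1 + |(m0 : ℝ)| + |(m1 : ℝ)| + |(m2 : ℝ)| := rfl
  have hPe : Pm (m0, m1, m2) s = m0 + m1 * s + m2 * s ^ 2 := rfl
  rw [← hHe, ← hPe]
  have hH12 : 1 ≤ Hm (m0, m1, m2) ^ 12 := one_le_pow₀ hH
  by_cases hB : s ∈ Em (m0, m1, m2)
  · have h3 := hcm (m0, m1, m2) hB
    calc min 1 c / Hm (m0, m1, m2) ^ 12 ≤ min 1 c :=
          div_le_self (le_min zero_le_one hc.le) hH12
      _ ≤ c := min_le_right _ _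
      _ ≤ _ := h3
  · have h4 : em (m0, m1, m2) ^ 2 ≤ |Pm (m0, m1, m2) s| := by
      by_contra hlt
      exact hB ⟨hm, not_le.1 hlt⟩
    calc min 1 c / Hm (m0, m1, m2) ^ 12 ≤ 1 / Hm (m0, m1, m2) ^ 12 := by
          gcongr
          exact min_le_left _ _
      _ = em (m0, m1, m2) ^ 2 := by
          unfold em
          rw [div_pow, one_pow, ← pow_mul]
      _ ≤ _ := h4

/-- DIT. -/
theorem dit : DitStmt := by
  refine ⟨ae_dio, ?_⟩
  intro l0 hl0
  have hnull : volume {s : ℝ | ¬ Dio2 s} = 0 := ae_iff.1 ae_dio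
  rw [ae_iff]
  have himg := addHaar_image_eq_zero_of_differentiableOn_of_addHaar_eq_zero (volume : Measure ℝ)
    (f := fun s : ℝ => l0 / Real.sqrt s) (s := {s : ℝ | ¬ Dio2 s} ∩ Ioi 0)
    (by
      intro s hs
      have hs0 : s ≠ 0 := ne_of_gt hs.2
      have hsq : Real.sqrt s ≠ 0 := (Real.sqrt_pos.2 hs.2).ne'
      exact ((differentiableAt_const l0).div ((Real.hasDerivAt_sqrt hs0).differentiableAt)
        hsq).differentiableWithinAt)
    (measure_mono_null inter_subset_left hnull)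
  refine measure_mono_null ?_ himg
  intro l1 hl1
  simp only [mem_setOf_eq, Classical.not_imp] at hl1
  obtain ⟨hl1, hbad⟩ := hl1
  refine ⟨(l0 / l1) ^ 2, ⟨hbad, ?_⟩, ?_⟩
  · show 0 < (l0 / l1) ^ 2
    positivity
  · show l0 / Real.sqrt ((l0 / l1) ^ 2) = l1
    rw [Real.sqrt_sq (by positivity)]
    field_simp

end Pool.Agent.BOX.H23
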